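import Mathlib

namespace Pool.Agent.H.MP_1867c4_co.G

abbrev W (m s : ℕ) := Fin (m + 1) × Option (Bool × Fin (s + 1))

def c {s : ℕ} (e : Prop) [Decidable e] :
    Option (Bool × Fin (s + 1)) → Option (Bool × Fin (s + 1)) → ℕ
  | none, none => if e then 0 else 2
  | none, some q => if q.1 = true then 1 else 2
  | some p, none => if p.1 = true then 1 else 2
  | some p, some q => if p.1 = q.1 then (if p.2.val = q.2.val then 0 else 2) else 1

def D {m s : ℕ} (x y : W m s) : ℕ :=
  (x.1.val - y.1.val) + (y.1.val - x.1.val) + c (x.1.val = y.1.val) x.2 y.2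

variable {m s : ℕ}

lemma D_symm (x y : W m s) : D x y = D y x := by
  rcases x with ⟨i, _ | ⟨_ | _, t⟩⟩ <;> rcases y with ⟨j, _ | ⟨_ | _, t'⟩⟩ <;>
    simp only [D, c] <;> split_ifs <;> first | omega | simp_all

lemma D_self (x : W m s) : D x x = 0 := by
  rcases x with ⟨i, _ | ⟨_ | _, t⟩⟩ <;> simp [D, c]

lemma D_tri (x y z : W m s) : D x z ≤ D x y + D y z := by
  rcases x with ⟨i, _ | ⟨_ | _, t⟩⟩ <;> rcases y with ⟨j, _ | ⟨_ | _, t'⟩⟩ <;>
    rcases z with ⟨k, _ | ⟨_ | _, t''⟩⟩ <;>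
    simp only [D, c] <;> split_ifs <;> first | omega | simp_all

lemma D_zero (x y : W m s) (h : D x y = 0) : x = y := by
  rcases x with ⟨i, _ | ⟨_ | _, t⟩⟩ <;> rcases y with ⟨j, _ | ⟨_ | _, t'⟩⟩ <;>
    simp only [D, c] at h <;> split_ifs at h <;>
    first | omega | (simp only [Prod.mk.injEq, Option.some.injEq, Fin.ext_iff, true_and, and_true]; omega) | simp_all

lemma D_step (x y : W m s) (h : D x y ≠ 0) : ∃ z, D x z = 1 ∧ D z y + 1 = D x y := by
  rcases x with ⟨i, _ | ⟨b, t⟩⟩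
  · rcases y with ⟨j, _ | ⟨_ | _, t'⟩⟩
    · refine ⟨(i, some (true, 0)), ?_, ?_⟩ <;> simp only [D, c] at h ⊢ <;> split_ifs at h ⊢ <;>
        first | omega | simp_all
    · refine ⟨(i, some (true, 0)), ?_, ?_⟩ <;> simp only [D, c] at h ⊢ <;> split_ifs at h ⊢ <;>
        first | omega | simp_all
    · refine ⟨(i, some (true, t')), ?_, ?_⟩ <;> simp only [D, c] at h ⊢ <;> split_ifs at h ⊢ <;>
        first | omega | simp_all
  · obtain ⟨j, q⟩ := y
    have hi := i.2
    have hj := j.2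
    rcases lt_trichotomy i.val j.val with hij | hij | hij
    · refine ⟨(⟨i.val + 1, by omega⟩, some (b, t)), ?_, ?_⟩ <;> rcases q with _ | ⟨b', t'⟩ <;>
        simp only [D, c] <;> split_ifs <;> first | omega | simp_all
    · rcases q with _ | ⟨b', t'⟩
      · cases b
        · refine ⟨(i, some (true, 0)), ?_, ?_⟩ <;> simp [D, c]
        · refine ⟨(j, none), ?_, ?_⟩ <;> simp [D, c, hij]
      · refine ⟨(i, some (!b, t')), ?_, ?_⟩ <;> cases b <;> cases b' <;>
          simp only [D, c] at h ⊢ <;> split_ifs at h ⊢ <;> first | omega | simp_all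
    · refine ⟨(⟨i.val - 1, by omega⟩, some (b, t)), ?_, ?_⟩ <;> rcases q with _ | ⟨b', t'⟩ <;>
        simp only [D, c] <;> split_ifs <;> first | omega | simp_all

def Gr (m s : ℕ) : SimpleGraph (W m s) where
  Adj x y := D x y = 1
  symm := ⟨fun x y h => by rw [D_symm]; exact h⟩
  loopless := ⟨fun x h => by rw [D_self] at h; omega⟩

lemma walk (k : ℕ) : ∀ x y : W m s, D x y = k → ∃ p : (Gr m s).Walk x y, p.length = k := by
  induction k with
  | zero => intro x y h; obtain rfl := D_zero x y h; exact ⟨.nil, rfl⟩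
  | succ k ih =>
    intro x y h
    obtain ⟨z, h1, h2⟩ := D_step x y (by omega)
    obtain ⟨p, hp⟩ := ih z y (by omega)
    exact ⟨.cons (show (Gr m s).Adj x z from h1) p, by simp [hp]⟩

lemma le_len (x y : W m s) (p : (Gr m s).Walk x y) : D x y ≤ p.length := by
  induction p with
  | nil => rw [D_self]; omega
  | @cons a b d h p ih =>
    have h1 : D a b = 1 := h
    have := D_tri a b d
    simp only [SimpleGraph.Walk.length_cons]; omega

lemma conn : (Gr m s).Connected :=
  SimpleGraph.Connected.mk fun x y => ⟨(walk _ x y rfl).choose⟩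

lemma dist_eq (x y : W m s) : (Gr m s).dist x y = D x y := by
  obtain ⟨p, hp⟩ := walk _ x y rfl
  obtain ⟨q, hq⟩ := (conn (m := m) (s := s)).exists_walk_length_eq_dist x y
  have h1 := SimpleGraph.dist_le p
  have h2 := le_len x y q
  omega

def col (x : W m s) : ℕ :=
  (x.1.val + match x.2 with | none => 0 | some p => if p.1 = true then 1 else 0) % 2

lemma bip : (Gr m s).IsBipartite := by
  refine ⟨SimpleGraph.Coloring.mk (fun x => ⟨col x, Nat.mod_lt _ (by norm_num)⟩) ?_⟩
  intro x y h e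
  have h1 : D x y = 1 := h
  have h2 : col x = col y := congrArg Fin.val e
  rcases x with ⟨i, _ | ⟨_ | _, t⟩⟩ <;> rcases y with ⟨j, _ | ⟨_ | _, t'⟩⟩ <;>
    simp only [D, c, col] at h1 h2 <;> split_ifs at h1 h2 <;> first | omega | simp_all

lemma D_le (x y : W m s) : D x y ≤ m + 2 := by
  have := x.1.2
  have := y.1.2
  rcases x with ⟨i, _ | ⟨_ | _, t⟩⟩ <;> rcases y with ⟨j, _ | ⟨_ | _, t'⟩⟩ <;>
    simp only [D, c] at * <;> split_ifs <;> first | omega | simp_all

end Pool.Agent.H.MP_1867c4_co.G
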